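import Mathlib

/-!
# Gaussian-extremizable data are not dense among feasible Brascamp–Lieb data
-/

set_option autoImplicit false

open Matrix MeasureTheory Filter Topology
open scoped ENNReal NNReal

namespace Pool.Agent.Results.MP_b8a264_an.NotDense

/-- Families of linear maps `B_i : ℝ^d → ℝ^{n_i}`, given by their matrices. -/
abbrev Maps (k d : ℕ) (n : Fin k → ℕ) := ∀ i : Fin k, Matrix (Fin (n i)) (Fin d) ℝ

section defs

variable {k d : ℕ} {n : Fin k → ℕ}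

/-- `(B, c)` is a Brascamp–Lieb datum: the maps are onto and the exponents positive. -/
structure IsDatum (B : Maps k d n) (c : Fin k → ℝ) : Prop where
  onto : ∀ i, Function.Surjective fun x : Fin d → ℝ => B i *ᵥ x
  pos : ∀ i, 0 < c i

/-- The Brascamp–Lieb constant. -/
noncomputable def BL (B : Maps k d n) (c : Fin k → ℝ) : ℝ≥0∞ :=
  sInf {C | ∀ f : ∀ i, (Fin (n i) → ℝ) → ℝ≥0, (∀ i, Measurable (f i)) →
    (∀ i, ∫⁻ y, (f i y : ℝ≥0∞) ≠ ⊤) →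
    ∫⁻ x : Fin d → ℝ, ∏ i, (f i (B i *ᵥ x) : ℝ≥0∞) ^ c i ≤
      C * ∏ i, (∫⁻ y, (f i y : ℝ≥0∞)) ^ c i}

/-- The datum is feasible. -/
def Feasible (B : Maps k d n) (c : Fin k → ℝ) : Prop := BL B c < ⊤

/-- `M = ∑ c_i B_iᵀ A_i B_i`. -/
noncomputable def gram (B : Maps k d n) (c : Fin k → ℝ)
    (A : ∀ i, Matrix (Fin (n i)) (Fin (n i)) ℝ) : Matrix (Fin d) (Fin d) ℝ :=
  ∑ i, c i • ((B i)ᵀ * A i * B i)

/-- The expression whose supremum is the gaussian constant (with value in `[0, ∞]`). -/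
noncomputable def gaussRatio (B : Maps k d n) (c : Fin k → ℝ)
    (A : ∀ i, Matrix (Fin (n i)) (Fin (n i)) ℝ) : ℝ≥0∞ :=
  (ENNReal.ofReal (∏ i, (A i).det ^ c i) / ENNReal.ofReal (gram B c A).det) ^ (1 / 2 : ℝ)

/-- The gaussian constant. -/
noncomputable def BLg (B : Maps k d n) (c : Fin k → ℝ) : ℝ≥0∞ :=
  ⨆ A : {A : ∀ i, Matrix (Fin (n i)) (Fin (n i)) ℝ // ∀ i, (A i).PosDef}, gaussRatio B c A.1

/-- The datum is gaussian extremizable: the supremum is finite and attained. -/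
def GaussianExtremizable (B : Maps k d n) (c : Fin k → ℝ) : Prop :=
  BLg B c < ⊤ ∧ ∃ A : ∀ i, Matrix (Fin (n i)) (Fin (n i)) ℝ,
    (∀ i, (A i).PosDef) ∧ gaussRatio B c A = BLg B c

end defs

section general

lemma det_rank1 {m : ℕ} {A : Matrix (Fin m) (Fin m) ℝ} (hA : IsUnit A.det) (t : ℝ)
    (v : Fin m → ℝ) :
    (A + t • vecMulVec v v).det = A.det * (1 + t * (v ⬝ᵥ (A⁻¹ *ᵥ v))) := by
  have h1 : t • vecMulVec v v = replicateCol Unit (t • v) * replicateRow Unit v := by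
    rw [← vecMulVec_eq]
    ext i j; simp [vecMulVec_apply]; ring
  rw [h1, det_add_replicateCol_mul_replicateRow hA]
  congr 1
  rw [det_unique]
  simp [Matrix.mul_assoc, Matrix.mul_apply, dotProduct, mulVec, Finset.mul_sum]

lemma symm_form {m : ℕ} {A : Matrix (Fin m) (Fin m) ℝ} (hA : A.PosDef) (x y : Fin m → ℝ) :
    y ⬝ᵥ (A *ᵥ x) = x ⬝ᵥ (A *ᵥ y) := by
  have h : Aᵀ = A := by
    have := hA.isHermitian
    rwa [Matrix.IsHermitian, conjTranspose_eq_transpose_of_trivial] at this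
  rw [dotProduct_mulVec, ← mulVec_transpose, h, dotProduct_comm]

lemma form_pos {m : ℕ} {A : Matrix (Fin m) (Fin m) ℝ} (hA : A.PosDef) {x : Fin m → ℝ}
    (hx : x ≠ 0) : 0 < x ⬝ᵥ (A *ᵥ x) := by
  simpa using hA.dotProduct_mulVec_pos hx

lemma form_nonneg {m : ℕ} {A : Matrix (Fin m) (Fin m) ℝ} (hA : A.PosDef) (x : Fin m → ℝ) :
    0 ≤ x ⬝ᵥ (A *ᵥ x) := by
  by_cases hx : x = 0
  · simp [hx]
  · exact (form_pos hA hx).le

lemma form_expand {m : ℕ} {A : Matrix (Fin m) (Fin m) ℝ} (hA : A.PosDef) (x y : Fin m → ℝ)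
    (s t : ℝ) : (s • x - t • y) ⬝ᵥ (A *ᵥ (s • x - t • y)) =
      s ^ 2 * (x ⬝ᵥ (A *ᵥ x)) - 2 * s * t * (x ⬝ᵥ (A *ᵥ y)) + t ^ 2 * (y ⬝ᵥ (A *ᵥ y)) := by
  simp only [mulVec_sub, mulVec_smul, dotProduct_sub, sub_dotProduct, smul_dotProduct,
    dotProduct_smul, smul_eq_mul, symm_form hA x y]
  ring

lemma cs {m : ℕ} {A : Matrix (Fin m) (Fin m) ℝ} (hA : A.PosDef) (x y : Fin m → ℝ) :
    (x ⬝ᵥ (A *ᵥ y)) ^ 2 ≤ (x ⬝ᵥ (A *ᵥ x)) * (y ⬝ᵥ (A *ᵥ y)) := by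
  by_cases hy : y = 0
  · simp [hy]
  · have h1 := form_pos hA hy
    have h2 := form_nonneg hA ((y ⬝ᵥ (A *ᵥ y)) • x - (x ⬝ᵥ (A *ᵥ y)) • y)
    rw [form_expand hA] at h2
    have h3 : 0 ≤ (y ⬝ᵥ (A *ᵥ y)) *
        ((x ⬝ᵥ (A *ᵥ x)) * (y ⬝ᵥ (A *ᵥ y)) - (x ⬝ᵥ (A *ᵥ y)) ^ 2) := by nlinarith
    have h4 := nonneg_of_mul_nonneg_right h3 h1
    linarith

lemma cs_strict {m : ℕ} {A : Matrix (Fin m) (Fin m) ℝ} (hA : A.PosDef) (x y : Fin m → ℝ)
    (hy : y ≠ 0) (hxy : ∀ s t : ℝ, 0 < s → s • x - t • y ≠ 0) :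
    (x ⬝ᵥ (A *ᵥ y)) ^ 2 < (x ⬝ᵥ (A *ᵥ x)) * (y ⬝ᵥ (A *ᵥ y)) := by
  have h1 := form_pos hA hy
  have h2 := form_pos hA (hxy _ (x ⬝ᵥ (A *ᵥ y)) h1)
  rw [form_expand hA] at h2
  have h3 : 0 < (y ⬝ᵥ (A *ᵥ y)) *
      ((x ⬝ᵥ (A *ᵥ x)) * (y ⬝ᵥ (A *ᵥ y)) - (x ⬝ᵥ (A *ᵥ y)) ^ 2) := by nlinarith
  have h4 := pos_of_mul_pos_right h3 h1.le
  linarith

lemma inv_mulVec {m : ℕ} {A : Matrix (Fin m) (Fin m) ℝ} (hA : A.PosDef) (x : Fin m → ℝ) :
    A *ᵥ (A⁻¹ *ᵥ x) = x := by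
  rw [mulVec_mulVec, mul_nonsing_inv _ ((isUnit_iff_isUnit_det A).mp hA.isUnit), one_mulVec]

lemma inv_mulVec' {m : ℕ} {A : Matrix (Fin m) (Fin m) ℝ} (hA : A.PosDef) (x : Fin m → ℝ) :
    A⁻¹ *ᵥ (A *ᵥ x) = x := by
  rw [mulVec_mulVec, nonsing_inv_mul _ ((isUnit_iff_isUnit_det A).mp hA.isUnit), one_mulVec]

/-- rank one perturbations of positive definite matrices -/
lemma posDef_add {m : ℕ} {A : Matrix (Fin m) (Fin m) ℝ} (hA : A.PosDef) (v : Fin m → ℝ) {t : ℝ}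
    (ht : |t| * (v ⬝ᵥ (A⁻¹ *ᵥ v)) < 1) : (A + t • vecMulVec v v).PosDef := by
  apply PosDef.of_dotProduct_mulVec_pos
  · have h1 : A.IsHermitian := hA.isHermitian
    have h2 : (t • vecMulVec v v).IsHermitian := by
      ext i j; simp [vecMulVec_apply]; left; ring
    exact h1.add h2
  · intro x hx
    have hq := form_pos hA hx
    have e : star x ⬝ᵥ ((A + t • vecMulVec v v) *ᵥ x) = x ⬝ᵥ (A *ᵥ x) + t * (v ⬝ᵥ x) ^ 2 := by
      have : (vecMulVec v v) *ᵥ x = (v ⬝ᵥ x) • v := by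
        ext i; simp [vecMulVec_apply, mulVec, dotProduct, Finset.mul_sum, mul_comm, mul_left_comm]
      rw [add_mulVec, smul_mulVec, this]
      simp only [star_trivial, dotProduct_add, dotProduct_smul, smul_eq_mul, dotProduct_comm x v]
      ring
    rw [e]
    have h3 := cs hA x (A⁻¹ *ᵥ v)
    rw [inv_mulVec hA, dotProduct_comm (A⁻¹ *ᵥ v) v, dotProduct_comm x v] at h3
    have h4 : 0 ≤ v ⬝ᵥ (A⁻¹ *ᵥ v) := form_nonneg hA.inv v
    have h5 : -|t| ≤ t := neg_abs_le t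
    have h6 : 0 ≤ |t| := abs_nonneg t
    have h7 : |t| * (v ⬝ᵥ x) ^ 2 ≤ |t| * ((x ⬝ᵥ (A *ᵥ x)) * (v ⬝ᵥ (A⁻¹ *ᵥ v))) :=
      mul_le_mul_of_nonneg_left h3 h6
    nlinarith [sq_nonneg (v ⬝ᵥ x)]

variable {k d : ℕ} {n : Fin k → ℕ}

lemma conj_rank1 {a b : ℕ} (B : Matrix (Fin a) (Fin b) ℝ) (v : Fin a → ℝ) :
    Bᵀ * vecMulVec v v * B = vecMulVec (Bᵀ *ᵥ v) (Bᵀ *ᵥ v) := by
  rw [mul_vecMulVec, vecMulVec_mul, mulVec_transpose]

lemma gram_update (B : Maps k d n) (c : Fin k → ℝ) (A : ∀ i, Matrix (Fin (n i)) (Fin (n i)) ℝ)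
    (i : Fin k) (t : ℝ) (v : Fin (n i) → ℝ) :
    gram B c (Function.update A i (A i + t • vecMulVec v v)) =
      gram B c A + (c i * t) • vecMulVec ((B i)ᵀ *ᵥ v) ((B i)ᵀ *ᵥ v) := by
  unfold gram
  rw [← Finset.add_sum_erase _ _ (Finset.mem_univ i),
    ← Finset.add_sum_erase Finset.univ (fun j => c j • ((B j)ᵀ * A j * B j)) (Finset.mem_univ i)]
  have h1 : ∑ x ∈ Finset.univ.erase i, c x •
      ((B x)ᵀ * Function.update A i (A i + t • vecMulVec v v) x * B x) =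
      ∑ x ∈ Finset.univ.erase i, c x • ((B x)ᵀ * A x * B x) := by
    apply Finset.sum_congr rfl
    intro j hj
    rw [Function.update_of_ne (Finset.ne_of_mem_erase hj)]
  rw [h1, Function.update_self, Matrix.mul_add, Matrix.add_mul, Matrix.mul_smul, Matrix.smul_mul,
    conj_rank1, smul_add, smul_smul]
  abel

lemma prod_update (c : Fin k → ℝ) (A : ∀ i, Matrix (Fin (n i)) (Fin (n i)) ℝ)
    (hA : ∀ i, (A i).PosDef) (i : Fin k) (t : ℝ) (v : Fin (n i) → ℝ)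
    (ht : 0 ≤ 1 + t * (v ⬝ᵥ ((A i)⁻¹ *ᵥ v))) :
    ∏ j, (Function.update A i (A i + t • vecMulVec v v) j).det ^ c j =
      (∏ j, (A j).det ^ c j) * (1 + t * (v ⬝ᵥ ((A i)⁻¹ *ᵥ v))) ^ c i := by
  rw [← Finset.mul_prod_erase _ _ (Finset.mem_univ i),
    ← Finset.mul_prod_erase Finset.univ (fun j => (A j).det ^ c j) (Finset.mem_univ i)]
  have h1 : ∏ x ∈ Finset.univ.erase i,
      (Function.update A i (A i + t • vecMulVec v v) x).det ^ c x =
      ∏ x ∈ Finset.univ.erase i, (A x).det ^ c x := by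
    apply Finset.prod_congr rfl
    intro j hj
    rw [Function.update_of_ne (Finset.ne_of_mem_erase hj)]
  rw [h1, Function.update_self,
    det_rank1 ((isUnit_iff_isUnit_det _).mp (hA i).isUnit), Real.mul_rpow (hA i).det_pos.le ht]
  ring

lemma ratio_le {B : Maps k d n} {c : Fin k → ℝ} {A A' : ∀ i, Matrix (Fin (n i)) (Fin (n i)) ℝ}
    (hD : 0 < (gram B c A).det) (hD' : 0 < (gram B c A').det)
    (hN : 0 ≤ ∏ i, (A i).det ^ c i)
    (h : gaussRatio B c A' ≤ gaussRatio B c A) :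
    (∏ i, (A' i).det ^ c i) / (gram B c A').det ≤ (∏ i, (A i).det ^ c i) / (gram B c A).det := by
  unfold gaussRatio at h
  rw [ENNReal.rpow_le_rpow_iff (by norm_num), ← ENNReal.ofReal_div_of_pos hD,
    ← ENNReal.ofReal_div_of_pos hD'] at h
  exact (ENNReal.ofReal_le_ofReal_iff (by positivity)).mp h

/-- Stationarity at a maximiser. -/
lemma stationary {B : Maps k d n} {c : Fin k → ℝ} (hc : ∀ i, 0 < c i)
    {A : ∀ i, Matrix (Fin (n i)) (Fin (n i)) ℝ} (hA : ∀ i, (A i).PosDef)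
    (hM : (gram B c A).PosDef)
    (hmax : ∀ A' : ∀ i, Matrix (Fin (n i)) (Fin (n i)) ℝ, (∀ i, (A' i).PosDef) →
      gaussRatio B c A' ≤ gaussRatio B c A) (i : Fin k) (v : Fin (n i) → ℝ) :
    v ⬝ᵥ ((A i)⁻¹ *ᵥ v) = ((B i)ᵀ *ᵥ v) ⬝ᵥ ((gram B c A)⁻¹ *ᵥ ((B i)ᵀ *ᵥ v)) := by
  set α := v ⬝ᵥ ((A i)⁻¹ *ᵥ v) with hα
  set β := ((B i)ᵀ *ᵥ v) ⬝ᵥ ((gram B c A)⁻¹ *ᵥ ((B i)ᵀ *ᵥ v)) with hβ
  have hNpos : 0 < ∏ j, (A j).det ^ c j :=
    Finset.prod_pos fun j _ => Real.rpow_pos_of_pos (hA j).det_pos _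
  have hDpos := hM.det_pos
  have hmin : IsLocalMin (fun t : ℝ => 1 + c i * t * β - (1 + t * α) ^ c i) 0 := by
    have h1 : ∀ᶠ t : ℝ in 𝓝 0, |t| * α < 1 := by
      have : Tendsto (fun t : ℝ => |t| * α) (𝓝 0) (𝓝 (|0| * α)) := by
        apply Continuous.tendsto; fun_prop
      rw [abs_zero, zero_mul] at this
      exact this.eventually_lt_const one_pos
    have h2 : ∀ᶠ t : ℝ in 𝓝 0, 0 < 1 + c i * t * β := by
      have : Tendsto (fun t : ℝ => 1 + c i * t * β) (𝓝 0) (𝓝 (1 + c i * 0 * β)) := by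
        apply Continuous.tendsto; fun_prop
      rw [mul_zero, zero_mul, add_zero] at this
      exact this.eventually_const_lt one_pos
    have h3 : ∀ᶠ t : ℝ in 𝓝 0, 0 < 1 + t * α := by
      have : Tendsto (fun t : ℝ => 1 + t * α) (𝓝 0) (𝓝 (1 + 0 * α)) := by
        apply Continuous.tendsto; fun_prop
      rw [zero_mul, add_zero] at this
      exact this.eventually_const_lt one_pos
    filter_upwards [h1, h2, h3] with t ht1 ht2 ht3
    have hPD : ∀ j, (Function.update A i (A i + t • vecMulVec v v) j).PosDef := by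
      intro j
      by_cases hj : j = i
      · subst hj
        rw [Function.update_self]
        exact posDef_add (hA j) v ht1
      · rw [Function.update_of_ne hj]; exact hA j
    have hD' : (gram B c (Function.update A i (A i + t • vecMulVec v v))).det =
        (gram B c A).det * (1 + c i * t * β) := by
      rw [gram_update, det_rank1 ((isUnit_iff_isUnit_det _).mp hM.isUnit)]
    have hD'pos : 0 < (gram B c (Function.update A i (A i + t • vecMulVec v v))).det := by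
      rw [hD']; positivity
    have h4 := ratio_le hDpos hD'pos hNpos.le (hmax _ hPD)
    rw [prod_update c A hA i t v ht3.le, hD', div_le_div_iff₀ (by positivity) hDpos] at h4
    have h5 : (1 + t * α) ^ c i ≤ 1 + c i * t * β := by
      have h6 : 0 < (∏ j, (A j).det ^ c j) * (gram B c A).det := by positivity
      by_contra hcon
      push Not at hcon
      have := mul_lt_mul_of_pos_left hcon h6
      nlinarith
    simp only [mul_zero, zero_mul, add_zero, Real.one_rpow, sub_self]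
    linarith
  have hder : HasDerivAt (fun t : ℝ => 1 + c i * t * β - (1 + t * α) ^ c i)
      (c i * β - c i * α) 0 := by
    have h1 : HasDerivAt (fun t : ℝ => 1 + c i * t * β) (c i * β) 0 := by
      have := (((hasDerivAt_id (0 : ℝ)).const_mul (c i)).mul_const β).const_add 1
      simpa using this
    have h2 : HasDerivAt (fun t : ℝ => 1 + t * α) α 0 := by
      have := ((hasDerivAt_id (0 : ℝ)).mul_const α).const_add 1
      simpa using this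
    have h3 := h2.rpow_const (p := c i) (Or.inl (by norm_num))
    have h4 := h1.sub h3
    refine h4.congr_deriv ?_
    simp
    ring
  have h0 := hmin.hasDerivAt_eq_zero hder
  have h7 : c i * (β - α) = 0 := by linarith
  rcases mul_eq_zero.mp h7 with h8 | h8
  · exact absurd h8 (hc i).ne'
  · linarith

/-- The dimension condition. -/
lemma dim_cond {B : Maps k d n} {c : Fin k → ℝ}
    {A : ∀ i, Matrix (Fin (n i)) (Fin (n i)) ℝ} (hA : ∀ i, (A i).PosDef)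
    (hM : (gram B c A).PosDef)
    (hmax : ∀ A' : ∀ i, Matrix (Fin (n i)) (Fin (n i)) ℝ, (∀ i, (A' i).PosDef) →
      gaussRatio B c A' ≤ gaussRatio B c A) :
    ∑ i, c i * n i = d := by
  have hNpos : 0 < ∏ j, (A j).det ^ c j :=
    Finset.prod_pos fun j _ => Real.rpow_pos_of_pos (hA j).det_pos _
  have hDpos := hM.det_pos
  have key : ∀ s : ℝ, 0 < s → s ^ (∑ i, c i * n i) ≤ s ^ (d : ℝ) := by
    intro s hs
    have hg : gram B c (fun i => s • A i) = s • gram B c A := by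
      unfold gram
      rw [Finset.smul_sum]
      apply Finset.sum_congr rfl
      intro i _
      rw [Matrix.mul_smul, Matrix.smul_mul, smul_comm]
    have hgd : (gram B c (fun i => s • A i)).det = s ^ (d : ℝ) * (gram B c A).det := by
      rw [hg, det_smul, Fintype.card_fin, Real.rpow_natCast]
    have hp : ∏ i, (s • A i).det ^ c i = s ^ (∑ i, c i * n i) * ∏ i, (A i).det ^ c i := by
      rw [Real.rpow_sum_of_pos hs, ← Finset.prod_mul_distrib]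
      apply Finset.prod_congr rfl
      intro i _
      rw [det_smul, Fintype.card_fin, Real.mul_rpow (by positivity) (hA i).det_pos.le,
        ← Real.rpow_natCast, ← Real.rpow_mul hs.le, mul_comm (c i)]
    have h4 := ratio_le hDpos (by rw [hgd]; positivity) hNpos.le
      (hmax _ fun i => (hA i).smul hs)
    rw [hp, hgd, div_le_div_iff₀ (by positivity) hDpos] at h4
    by_contra hcon
    push Not at hcon
    have h6 : 0 < (∏ j, (A j).det ^ c j) * (gram B c A).det := by positivity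
    have := mul_lt_mul_of_pos_left hcon h6
    nlinarith
  have h2 := key 2 (by norm_num)
  have h3 := key (1 / 2) (by norm_num)
  rw [Real.rpow_le_rpow_left_iff (by norm_num)] at h2
  rw [Real.rpow_le_rpow_left_iff_of_base_lt_one (by norm_num) (by norm_num)] at h3
  linarith

lemma gram_psd {B : Maps k d n} {c : Fin k → ℝ} (hc : ∀ i, 0 < c i)
    {A : ∀ i, Matrix (Fin (n i)) (Fin (n i)) ℝ} (hA : ∀ i, (A i).PosDef) :
    (gram B c A).PosSemidef := by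
  unfold gram
  apply Matrix.posSemidef_sum
  intro i _
  have h := (hA i).posSemidef.conjTranspose_mul_mul_same (B i)
  rw [conjTranspose_eq_transpose_of_trivial] at h
  exact h.smul (hc i).le

lemma gram_posDef {B : Maps k d n} {c : Fin k → ℝ} (hc : ∀ i, 0 < c i)
    {A : ∀ i, Matrix (Fin (n i)) (Fin (n i)) ℝ} (hA : ∀ i, (A i).PosDef)
    (hfin : gaussRatio B c A < ⊤) : (gram B c A).PosDef := by
  have hpsd := gram_psd (B := B) hc hA
  rw [hpsd.posDef_iff_isUnit, isUnit_iff_isUnit_det, isUnit_iff_ne_zero]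
  intro h0
  have hNpos : 0 < ∏ j, (A j).det ^ c j :=
    Finset.prod_pos fun j _ => Real.rpow_pos_of_pos (hA j).det_pos _
  unfold gaussRatio at hfin
  rw [h0, ENNReal.ofReal_zero, ENNReal.div_zero (by simpa using hNpos),
    ENNReal.top_rpow_of_pos (by norm_num)] at hfin
  exact lt_irrefl _ hfin

end general

section example3

/-- the dimensions `(2, 1, 1)` -/
abbrev dims : Fin 3 → ℕ := ![2, 1, 1]

/-- `B_1(x) = (x_1, x_2)`, `B_2(x) = x_3`, `B_3(x) = x_2 + x_3`. -/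
def B₀ : Maps 3 3 dims
  | 0 => (!![1, 0, 0; 0, 1, 0] : Matrix (Fin 2) (Fin 3) ℝ)
  | 1 => (!![0, 0, 1] : Matrix (Fin 1) (Fin 3) ℝ)
  | 2 => (!![0, 1, 1] : Matrix (Fin 1) (Fin 3) ℝ)

/-- exponents `(1, 1/2, 1/2)` -/
noncomputable def c₀ : Fin 3 → ℝ := ![1, 1 / 2, 1 / 2]

/-- the single row of a `1 × 3` matrix -/
def row0 (b : Matrix (Fin 1) (Fin 3) ℝ) : Fin 3 → ℝ := fun j => b 0 j

/-- the entry of a `1 × 1` matrix -/
def ent (A : Matrix (Fin 1) (Fin 1) ℝ) : ℝ := A 0 0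

/-- the vector representing the functional `B_2` -/
def b1 (B : Maps 3 3 dims) : Fin 3 → ℝ := row0 (B 1)

/-- the vector representing the functional `B_3` -/
def b2 (B : Maps 3 3 dims) : Fin 3 → ℝ := row0 (B 2)

lemma one_by_one (A : Matrix (Fin 1) (Fin 1) ℝ) (b : Matrix (Fin 1) (Fin 3) ℝ) :
    bᵀ * A * b = ent A • vecMulVec (row0 b) (row0 b) := by
  ext i j
  simp [Matrix.mul_apply, vecMulVec_apply, ent, row0]
  ring

lemma one_transpose (b : Matrix (Fin 1) (Fin 3) ℝ) : bᵀ *ᵥ (fun _ => 1) = row0 b := by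
  ext i
  simp [mulVec, dotProduct, row0]

lemma one_form {A : Matrix (Fin 1) (Fin 1) ℝ} (hA : A.PosDef) :
    ent A * ((fun _ => 1) ⬝ᵥ (A⁻¹ *ᵥ (fun _ => 1))) = 1 := by
  have h := inv_mulVec hA (fun _ => 1)
  have h0 := congrFun h 0
  simp only [mulVec, dotProduct, Finset.univ_unique, Finset.sum_singleton, Fin.default_eq_zero,
    Fin.isValue] at h0 ⊢
  unfold ent
  linarith

lemma gram_three (B : Maps 3 3 dims) (c : Fin 3 → ℝ)
    (A : ∀ i, Matrix (Fin (dims i)) (Fin (dims i)) ℝ) (x : Fin 3 → ℝ) :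
    gram B c A *ᵥ x = c 0 • ((B 0)ᵀ *ᵥ (A 0 *ᵥ (B 0 *ᵥ x))) +
      (c 1 * ent (A 1) * (b1 B ⬝ᵥ x)) • b1 B +
      (c 2 * ent (A 2) * (b2 B ⬝ᵥ x)) • b2 B := by
  have hv : ∀ b : Fin 3 → ℝ, (vecMulVec b b) *ᵥ x = (b ⬝ᵥ x) • b := by
    intro b
    ext i; simp [vecMulVec_apply, mulVec, dotProduct, Finset.mul_sum, mul_comm, mul_left_comm]
  unfold gram
  rw [Fin.sum_univ_three]
  have h1 : (B 1)ᵀ * A 1 * B 1 = ent (A 1) • vecMulVec (b1 B) (b1 B) :=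
    one_by_one (A 1) (B 1)
  have h2 : (B 2)ᵀ * A 2 * B 2 = ent (A 2) • vecMulVec (b2 B) (b2 B) :=
    one_by_one (A 2) (B 2)
  rw [h1, h2, add_mulVec, add_mulVec, smul_mulVec, smul_smul, smul_smul, smul_mulVec, smul_mulVec,
    hv, hv, smul_smul, smul_smul, ← mulVec_mulVec, ← mulVec_mulVec]

/-- No datum with dimensions `(2,1,1)` in `ℝ³` with linearly independent functionals `B_2, B_3`
is gaussian extremizable. -/
lemma not_extremizable (B : Maps 3 3 dims) (c : Fin 3 → ℝ) (hc : ∀ i, 0 < c i)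
    (hind : b1 B 1 * b2 B 2 - b1 B 2 * b2 B 1 ≠ 0) : ¬ GaussianExtremizable B c := by
  rintro ⟨hfin, A, hA, hAeq⟩
  rw [← hAeq] at hfin
  have hM := gram_posDef hc hA hfin
  have hmax : ∀ A' : ∀ i, Matrix (Fin (dims i)) (Fin (dims i)) ℝ, (∀ i, (A' i).PosDef) →
      gaussRatio B c A' ≤ gaussRatio B c A := by
    intro A' hA'
    rw [hAeq]
    exact le_iSup (fun A : {A : ∀ i, Matrix (Fin (dims i)) (Fin (dims i)) ℝ //
      ∀ i, (A i).PosDef} => gaussRatio B c A.1) ⟨A', hA'⟩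
  have hst := stationary hc hA hM hmax
  have hdim := dim_cond hA hM hmax
  set M := gram B c A with hMdef
  set a1 : ℝ := ent (A 1) with ha1
  set a2 : ℝ := ent (A 2) with ha2
  set u := b1 B with hu
  set w := b2 B with hw
  have hu0 : u ≠ 0 := by
    intro h0; apply hind; rw [h0]; simp
  have hw0 : w ≠ 0 := by
    intro h0; apply hind; rw [h0]; simp
  -- stationarity for the one dimensional factors
  have hs1 : a1 * (u ⬝ᵥ (M⁻¹ *ᵥ u)) = 1 := by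
    have h1 := hst 1 (fun _ => 1)
    have h2 : (B 1)ᵀ *ᵥ (fun _ => 1) = u := one_transpose (B 1)
    rw [h2] at h1
    rw [← h1]
    exact one_form (hA 1)
  have hs2 : a2 * (w ⬝ᵥ (M⁻¹ *ᵥ w)) = 1 := by
    have h1 := hst 2 (fun _ => 1)
    have h2 : (B 2)ᵀ *ᵥ (fun _ => 1) = w := one_transpose (B 2)
    rw [h2] at h1
    rw [← h1]
    exact one_form (hA 2)
  have hgram := gram_three B c A
  -- `c 0 = 1`
  have hc0 : c 0 = 1 := by
    obtain ⟨p, hp0, hpu, hpw⟩ : ∃ p : Fin 3 → ℝ, p ≠ 0 ∧ u ⬝ᵥ p = 0 ∧ w ⬝ᵥ p = 0 := by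
      let N : Matrix (Fin 2) (Fin 3) ℝ := Matrix.of ![u, w]
      have hlt : Module.finrank ℝ (Fin 2 → ℝ) < Module.finrank ℝ (Fin 3 → ℝ) := by simp
      have hker := LinearMap.ker_ne_bot_of_finrank_lt (f := N.mulVecLin) hlt
      obtain ⟨p, hp, hp0⟩ := (Submodule.ne_bot_iff _).mp hker
      rw [LinearMap.mem_ker, mulVecLin_apply] at hp
      refine ⟨p, hp0, ?_, ?_⟩
      · exact congrFun hp 0
      · exact congrFun hp 1
    have hMp := hgram p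
    rw [← hMdef] at hMp
    change M *ᵥ p = c 0 • ((B 0)ᵀ *ᵥ (A 0 *ᵥ (B 0 *ᵥ p))) + (c 1 * a1 * (u ⬝ᵥ p)) • u +
      (c 2 * a2 * (w ⬝ᵥ p)) • w at hMp
    rw [hpu, hpw, mul_zero, mul_zero, zero_smul, zero_smul, add_zero, add_zero] at hMp
    have hst0 := hst 0 (A 0 *ᵥ (B 0 *ᵥ p))
    rw [inv_mulVec' (hA 0)] at hst0
    have hc0 := hc 0
    have hBv : (B 0)ᵀ *ᵥ (A 0 *ᵥ (B 0 *ᵥ p)) = (c 0)⁻¹ • (M *ᵥ p) := by
      rw [hMp, smul_smul, inv_mul_cancel₀ hc0.ne', one_smul]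
    have hlhs : (A 0 *ᵥ (B 0 *ᵥ p)) ⬝ᵥ (B 0 *ᵥ p) = (c 0)⁻¹ * ((M *ᵥ p) ⬝ᵥ p) := by
      rw [dotProduct_mulVec, ← mulVec_transpose, hBv, smul_dotProduct, smul_eq_mul]
    rw [hlhs, hBv, mulVec_smul, inv_mulVec' hM, smul_dotProduct, dotProduct_smul, smul_eq_mul,
      smul_eq_mul] at hst0
    have hpos : 0 < (M *ᵥ p) ⬝ᵥ p := by
      rw [dotProduct_comm]; exact form_pos hM hp0
    have h5 : (c 0)⁻¹ * ((M *ᵥ p) ⬝ᵥ p) ≠ 0 := by positivity
    have h6 : (c 0)⁻¹ = 1 := by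
      have : (c 0)⁻¹ * ((M *ᵥ p) ⬝ᵥ p) * ((c 0)⁻¹ - 1) = 0 := by linarith
      rcases mul_eq_zero.mp this with h7 | h7
      · exact absurd h7 h5
      · linarith
    have h7 := congrArg (fun x => x⁻¹) h6
    simpa using h7
  have hsum : c 1 + c 2 = 1 := by
    rw [Fin.sum_univ_three] at hdim
    have e0 : ((dims 0 : ℕ) : ℝ) = 2 := by simp [dims]
    have e1 : ((dims 1 : ℕ) : ℝ) = 1 := by simp [dims]
    have e2 : ((dims 2 : ℕ) : ℝ) = 1 := by simp [dims]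
    rw [e0, e1, e2, hc0] at hdim
    push_cast at hdim
    linarith
  -- the kernel of `B_1`
  obtain ⟨e, he0, he⟩ : ∃ e : Fin 3 → ℝ, e ≠ 0 ∧ B 0 *ᵥ e = 0 := by
    have hlt : Module.finrank ℝ (Fin (dims 0) → ℝ) < Module.finrank ℝ (Fin 3 → ℝ) := by
      change Module.finrank ℝ (Fin 2 → ℝ) < Module.finrank ℝ (Fin 3 → ℝ)
      simp
    have hker := LinearMap.ker_ne_bot_of_finrank_lt (f := (B 0).mulVecLin) hlt
    obtain ⟨p, hp, hp0⟩ := (Submodule.ne_bot_iff _).mp hker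
    rw [LinearMap.mem_ker, mulVecLin_apply] at hp
    exact ⟨p, hp0, hp⟩
  have hMe := hgram e
  rw [← hMdef] at hMe
  change M *ᵥ e = c 0 • ((B 0)ᵀ *ᵥ (A 0 *ᵥ (B 0 *ᵥ e))) + (c 1 * a1 * (u ⬝ᵥ e)) • u +
    (c 2 * a2 * (w ⬝ᵥ e)) • w at hMe
  rw [he, mulVec_zero, mulVec_zero, smul_zero, zero_add] at hMe
  set y1 := u ⬝ᵥ e with hy1
  set y2 := w ⬝ᵥ e with hy2
  set γ := u ⬝ᵥ (M⁻¹ *ᵥ w) with hγ
  have hsym : w ⬝ᵥ (M⁻¹ *ᵥ u) = γ := symm_form hM.inv u w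
  have hinv : e = (c 1 * a1 * y1) • (M⁻¹ *ᵥ u) + (c 2 * a2 * y2) • (M⁻¹ *ᵥ w) := by
    rw [← mulVec_smul, ← mulVec_smul, ← mulVec_add, ← hMe, inv_mulVec' hM]
  have k1 : y1 = c 1 * a1 * y1 * (u ⬝ᵥ (M⁻¹ *ᵥ u)) + c 2 * a2 * y2 * γ := by
    conv_lhs => rw [hy1, hinv]
    rw [dotProduct_add, dotProduct_smul, dotProduct_smul, smul_eq_mul, smul_eq_mul]
  have k2 : y2 = c 1 * a1 * y1 * γ + c 2 * a2 * y2 * (w ⬝ᵥ (M⁻¹ *ᵥ w)) := by
    conv_lhs => rw [hy2, hinv]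
    rw [dotProduct_add, dotProduct_smul, dotProduct_smul, smul_eq_mul, smul_eq_mul, hsym]
  have hc1 := hc 1
  have hc2 := hc 2
  have k3 : y1 = a2 * γ * y2 := by
    have : c 2 * (y1 - a2 * γ * y2) = 0 := by
      have e1 : c 1 * a1 * y1 * (u ⬝ᵥ (M⁻¹ *ᵥ u)) = c 1 * y1 := by
        linear_combination (c 1 * y1) * hs1
      rw [e1] at k1
      have : c 2 = 1 - c 1 := by linarith
      linear_combination k1 + y1 * this
    rcases mul_eq_zero.mp this with h | h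
    · exact absurd h hc2.ne'
    · linarith
  have k4 : y2 = a1 * γ * y1 := by
    have : c 1 * (y2 - a1 * γ * y1) = 0 := by
      have e1 : c 2 * a2 * y2 * (w ⬝ᵥ (M⁻¹ *ᵥ w)) = c 2 * y2 := by
        linear_combination (c 2 * y2) * hs2
      rw [e1] at k2
      have : c 1 = 1 - c 2 := by linarith
      linear_combination k2 + y2 * this
    rcases mul_eq_zero.mp this with h | h
    · exact absurd h hc1.ne'
    · linarith
  have hy1ne : y1 ≠ 0 := by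
    intro h0
    have h2 : y2 = 0 := by rw [k4, h0, mul_zero]
    apply he0
    rw [hinv, h0, h2]
    simp
  have k5 : a1 * a2 * γ ^ 2 = 1 := by
    have : y1 * (a1 * a2 * γ ^ 2 - 1) = 0 := by
      rw [k4] at k3
      linear_combination -k3
    rcases mul_eq_zero.mp this with h | h
    · exact absurd h hy1ne
    · linarith
  have hcs := cs_strict hM.inv u w hw0 (by
    intro s t hs h0
    have h1 := congrFun h0 1
    have h2 := congrFun h0 2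
    simp only [Pi.sub_apply, Pi.smul_apply, smul_eq_mul, Pi.zero_apply] at h1 h2
    apply hind
    have : s * (u 1 * w 2 - u 2 * w 1) = 0 := by
      linear_combination w 2 * h1 - w 1 * h2
    rcases mul_eq_zero.mp this with h | h
    · exact absurd h hs.ne'
    · exact h)
  have hpos1 : 0 < a1 := (hA 1).diag_pos (i := (0 : Fin 1))
  have hpos2 : 0 < a2 := (hA 2).diag_pos (i := (0 : Fin 1))
  have h9 := mul_lt_mul_of_pos_left hcs (mul_pos hpos1 hpos2)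
  have h10 : a1 * a2 * ((u ⬝ᵥ (M⁻¹ *ᵥ u)) * (w ⬝ᵥ (M⁻¹ *ᵥ w))) = 1 := by
    calc _ = (a1 * (u ⬝ᵥ (M⁻¹ *ᵥ u))) * (a2 * (w ⬝ᵥ (M⁻¹ *ᵥ w))) := by ring
      _ = 1 := by rw [hs1, hs2, one_mul]
  rw [h10] at h9
  linarith

lemma B₀_onto : ∀ i, Function.Surjective fun x : Fin 3 → ℝ => B₀ i *ᵥ x := by
  intro i
  fin_cases i
  · intro y
    change Fin 2 → ℝ at y
    refine ⟨![y 0, y 1, 0], ?_⟩
    change (!![1, 0, 0; 0, 1, 0] : Matrix (Fin 2) (Fin 3) ℝ) *ᵥ _ = y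
    ext j
    fin_cases j <;> simp [mulVec, dotProduct, Fin.sum_univ_three]
  · intro y
    change Fin 1 → ℝ at y
    refine ⟨![0, 0, y 0], ?_⟩
    change (!![0, 0, 1] : Matrix (Fin 1) (Fin 3) ℝ) *ᵥ _ = y
    ext j
    fin_cases j
    simp [mulVec, dotProduct, Fin.sum_univ_three]
  · intro y
    change Fin 1 → ℝ at y
    refine ⟨![0, 0, y 0], ?_⟩
    change (!![0, 1, 1] : Matrix (Fin 1) (Fin 3) ℝ) *ᵥ _ = y
    ext j
    fin_cases j
    simp [mulVec, dotProduct, Fin.sum_univ_three]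

lemma isDatum₀ : IsDatum B₀ c₀ := by
  refine ⟨B₀_onto, fun i => ?_⟩
  fin_cases i <;> simp [c₀]

/-- The basic inequality: Cauchy–Schwarz in the last variable. -/
lemma basic (F : (Fin 2 → ℝ) → ℝ≥0) (G H : (Fin 1 → ℝ) → ℝ≥0) (hF : Measurable F)
    (hG : Measurable G) (hH : Measurable H) :
    ∫⁻ x : Fin 3 → ℝ, (F ![x 0, x 1] : ℝ≥0∞) * ((G ![x 2] : ℝ≥0∞) ^ (1 / 2 : ℝ) *
      (H ![x 1 + x 2] : ℝ≥0∞) ^ (1 / 2 : ℝ)) ≤
      (∫⁻ y, (F y : ℝ≥0∞)) * ((∫⁻ y, (G y : ℝ≥0∞)) ^ (1 / 2 : ℝ) *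
        (∫⁻ y, (H y : ℝ≥0∞)) ^ (1 / 2 : ℝ)) := by
  set g : ℝ × (Fin 2 → ℝ) → ℝ≥0∞ := fun p => (F p.2 : ℝ≥0∞) *
    ((G ![p.1] : ℝ≥0∞) ^ (1 / 2 : ℝ) * (H ![p.2 1 + p.1] : ℝ≥0∞) ^ (1 / 2 : ℝ)) with hg
  have m1 : Measurable fun t : ℝ => (![t] : Fin 1 → ℝ) := by
    rw [measurable_pi_iff]; intro i; fin_cases i; exact measurable_id
  have hGm : Measurable fun t : ℝ => (G ![t] : ℝ≥0∞) := (hG.comp m1).coe_nnreal_ennreal
  have hHm : Measurable fun t : ℝ => (H ![t] : ℝ≥0∞) := (hH.comp m1).coe_nnreal_ennreal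
  have hgm : Measurable g := by
    refine (hF.comp measurable_snd).coe_nnreal_ennreal.mul
      (((hGm.comp measurable_fst).pow_const _).mul ((hHm.comp ?_).pow_const _))
    exact ((measurable_pi_apply 1).comp measurable_snd).add measurable_fst
  have e1 : ∫⁻ x : Fin 3 → ℝ, (F ![x 0, x 1] : ℝ≥0∞) * ((G ![x 2] : ℝ≥0∞) ^ (1 / 2 : ℝ) *
      (H ![x 1 + x 2] : ℝ≥0∞) ^ (1 / 2 : ℝ)) = ∫⁻ p, g p := by
    rw [← (volume_preserving_piFinSuccAbove (fun _ : Fin 3 => ℝ) 2).lintegral_comp_emb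
      (MeasurableEquiv.measurableEmbedding _) g]
    apply lintegral_congr
    intro x
    have h1 : (![x 0, x 1] : Fin 2 → ℝ) =
        (MeasurableEquiv.piFinSuccAbove (fun _ : Fin 3 => ℝ) 2 x).2 := by
      ext j; fin_cases j <;> rfl
    have h2 : x 2 = (MeasurableEquiv.piFinSuccAbove (fun _ : Fin 3 => ℝ) 2 x).1 := rfl
    have h3 : x 1 = (MeasurableEquiv.piFinSuccAbove (fun _ : Fin 3 => ℝ) 2 x).2 1 := rfl
    rw [hg]
    simp only
    rw [← h1, ← h2]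
    simp
  have e2 : ∀ K : (Fin 1 → ℝ) → ℝ≥0, ∫⁻ t : ℝ, (K ![t] : ℝ≥0∞) = ∫⁻ y, (K y : ℝ≥0∞) := by
    intro K
    rw [← (volume_preserving_funUnique (Fin 1) ℝ).lintegral_comp_emb
      (MeasurableEquiv.measurableEmbedding _) (fun t => (K ![t] : ℝ≥0∞))]
    apply lintegral_congr
    intro y
    have : (![(MeasurableEquiv.funUnique (Fin 1) ℝ) y] : Fin 1 → ℝ) = y := by
      ext j; fin_cases j; rfl
    rw [this]
  rw [e1, Measure.volume_eq_prod, lintegral_prod_symm _ hgm.aemeasurable]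
  have hinner : ∀ y : Fin 2 → ℝ, ∫⁻ t : ℝ, g (t, y) ≤ (F y : ℝ≥0∞) *
      ((∫⁻ y, (G y : ℝ≥0∞)) ^ (1 / 2 : ℝ) * (∫⁻ y, (H y : ℝ≥0∞)) ^ (1 / 2 : ℝ)) := by
    intro y
    have hHy : Measurable fun t : ℝ => (H ![y 1 + t] : ℝ≥0∞) :=
      hHm.comp (measurable_const.add measurable_id)
    calc ∫⁻ t : ℝ, g (t, y) = (F y : ℝ≥0∞) * ∫⁻ t : ℝ, (G ![t] : ℝ≥0∞) ^ (1 / 2 : ℝ) *
          (H ![y 1 + t] : ℝ≥0∞) ^ (1 / 2 : ℝ) := by
          exact lintegral_const_mul (F y : ℝ≥0∞) ((hGm.pow_const (1 / 2 : ℝ)).mul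
            (hHy.pow_const (1 / 2 : ℝ)))
      _ ≤ _ := by
          gcongr
          have hpq : (2 : ℝ).HolderConjugate 2 := Real.HolderConjugate.two_two
          have h := ENNReal.lintegral_mul_le_Lp_mul_Lq volume hpq
            (f := fun t : ℝ => (G ![t] : ℝ≥0∞) ^ (1 / 2 : ℝ))
            (g := fun t : ℝ => (H ![y 1 + t] : ℝ≥0∞) ^ (1 / 2 : ℝ))
            (hGm.pow_const _).aemeasurable (hHy.pow_const _).aemeasurable
          have hsq : ∀ z : ℝ≥0∞, (z ^ (1 / 2 : ℝ)) ^ (2 : ℝ) = z := by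
            intro z
            rw [← ENNReal.rpow_mul]; norm_num
          simp only [Pi.mul_apply, hsq] at h
          rw [lintegral_add_left_eq_self (fun t : ℝ => (H ![t] : ℝ≥0∞)) (y 1), e2 G, e2 H] at h
          exact h
  calc ∫⁻ y : Fin 2 → ℝ, ∫⁻ t : ℝ, g (t, y)
      ≤ ∫⁻ y : Fin 2 → ℝ, (F y : ℝ≥0∞) *
      ((∫⁻ y, (G y : ℝ≥0∞)) ^ (1 / 2 : ℝ) * (∫⁻ y, (H y : ℝ≥0∞)) ^ (1 / 2 : ℝ)) :=
        lintegral_mono hinner
    _ = _ := lintegral_mul_const _ hF.coe_nnreal_ennreal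

lemma feasible₀ : Feasible B₀ c₀ := by
  unfold Feasible BL
  refine lt_of_le_of_lt (sInf_le (a := 1) ?_) ENNReal.one_lt_top
  intro f hf _
  have h := basic (f 0) (f 1) (f 2) (hf 0) (hf 1) (hf 2)
  rw [one_mul]
  simp only [Fin.prod_univ_three]
  have c0 : c₀ 0 = 1 := rfl
  have c1 : c₀ 1 = 1 / 2 := rfl
  have c2 : c₀ 2 = 1 / 2 := rfl
  rw [c0, c1, c2]
  simp only [ENNReal.rpow_one]
  have e0 : ∀ x : Fin 3 → ℝ, B₀ 0 *ᵥ x = (![x 0, x 1] : Fin 2 → ℝ) := by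
    intro x
    change (!![1, 0, 0; 0, 1, 0] : Matrix (Fin 2) (Fin 3) ℝ) *ᵥ x = _
    ext j
    fin_cases j <;> simp [mulVec, dotProduct, Fin.sum_univ_three]
  have e1 : ∀ x : Fin 3 → ℝ, B₀ 1 *ᵥ x = (![x 2] : Fin 1 → ℝ) := by
    intro x
    change (!![0, 0, 1] : Matrix (Fin 1) (Fin 3) ℝ) *ᵥ x = _
    ext j
    fin_cases j
    simp [mulVec, dotProduct, Fin.sum_univ_three]
  have e2 : ∀ x : Fin 3 → ℝ, B₀ 2 *ᵥ x = (![x 1 + x 2] : Fin 1 → ℝ) := by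
    intro x
    change (!![0, 1, 1] : Matrix (Fin 1) (Fin 3) ℝ) *ᵥ x = _
    ext j
    fin_cases j
    simp [mulVec, dotProduct, Fin.sum_univ_three]
  simp only [e0, e1, e2, mul_assoc]
  exact h

lemma near_ind (B : Maps 3 3 dims) (h : ∀ i a b, |B₀ i a b - B i a b| < 1 / 10) :
    b1 B 1 * b2 B 2 - b1 B 2 * b2 B 1 ≠ 0 := by
  have h11 : |b1 B₀ 1 - b1 B 1| < 1 / 10 := h 1 (0 : Fin 1) 1
  have h12 : |b1 B₀ 2 - b1 B 2| < 1 / 10 := h 1 (0 : Fin 1) 2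
  have h21 : |b2 B₀ 1 - b2 B 1| < 1 / 10 := h 2 (0 : Fin 1) 1
  have h22 : |b2 B₀ 2 - b2 B 2| < 1 / 10 := h 2 (0 : Fin 1) 2
  have e11 : b1 B₀ 1 = 0 := by
    change (!![0, 0, 1] : Matrix (Fin 1) (Fin 3) ℝ) 0 1 = 0
    simp
  have e12 : b1 B₀ 2 = 1 := by
    change (!![0, 0, 1] : Matrix (Fin 1) (Fin 3) ℝ) 0 2 = 1
    simp
  have e21 : b2 B₀ 1 = 1 := by
    change (!![0, 1, 1] : Matrix (Fin 1) (Fin 3) ℝ) 0 1 = 1
    simp
  have e22 : b2 B₀ 2 = 1 := by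
    change (!![0, 1, 1] : Matrix (Fin 1) (Fin 3) ℝ) 0 2 = 1
    simp
  rw [e11, abs_lt] at h11
  rw [e12, abs_lt] at h12
  rw [e21, abs_lt] at h21
  rw [e22, abs_lt] at h22
  have k1 : b1 B 1 * b2 B 2 ≤ 1 / 10 * (11 / 10) := by nlinarith
  have k2 : 9 / 10 * (9 / 10) ≤ b1 B 2 * b2 B 1 := by nlinarith
  intro h0
  linarith

/-- **Negative answer to Q1.** -/
theorem result :
    (∃ (k d : ℕ) (n : Fin k → ℕ) (B : Maps k d n) (c : Fin k → ℝ),
      1 ≤ k ∧ 1 ≤ d ∧ (∀ i, 1 ≤ n i) ∧ IsDatum B c ∧ Feasible B c ∧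
      ∃ ε : ℝ, 0 < ε ∧ ∀ (B' : Maps k d n) (c' : Fin k → ℝ), IsDatum B' c' →
        (∀ i a b, |B i a b - B' i a b| < ε) → (∀ i, |c i - c' i| < ε) →
        ¬ GaussianExtremizable B' c') ∧
    (IsDatum B₀ c₀ ∧ Feasible B₀ c₀ ∧
      ∀ (B' : Maps 3 3 dims) (c' : Fin 3 → ℝ), IsDatum B' c' →
        (∀ i a b, |B₀ i a b - B' i a b| < 1 / 10) → ¬ GaussianExtremizable B' c') := by
  have key : ∀ (B' : Maps 3 3 dims) (c' : Fin 3 → ℝ), IsDatum B' c' →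
        (∀ i a b, |B₀ i a b - B' i a b| < 1 / 10) → ¬ GaussianExtremizable B' c' :=
    fun B' c' hD hB => not_extremizable B' c' hD.pos (near_ind B' hB)
  refine ⟨⟨3, 3, dims, B₀, c₀, by norm_num, by norm_num, ?_, isDatum₀, feasible₀, 1 / 10,
    by norm_num, fun B' c' hD hB _ => key B' c' hD hB⟩, isDatum₀, feasible₀, key⟩
  intro i
  fin_cases i <;> simp [dims]

end example3

end Pool.Agent.Results.MP_b8a264_an.NotDense
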